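import Pool.Agent.W206.YP.Stm
import Pool.Agent.W206.CT.CO
import Pool.Agent.W206.CT.TD
import Pool.Agent.W206.CT.FQ

/-!
# GEN: generic points with complex coordinates
-/

set_option autoImplicit false

namespace Pool.Agent.W389.YP.GEN

open MvPolynomial Pool.Agent.W206.CT Pool.Agent.W206.YP

/-- algebraically independent families over a countable field -/
theorem ex_ind (k : IntermediateField Qb ℂ) (hk : (k : Set ℂ).Countable) (V : Type) [Fintype V] :
    ∃ t : V → ℂ, AlgebraicIndependent k t := by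
  obtain ⟨s, hs⟩ := exists_isTranscendenceBasis k ℂ
  have h1 : Cardinal.mk k ≤ Cardinal.aleph0 := by
    rw [Cardinal.mk_le_aleph0_iff]
    exact hk.to_subtype
  have h2 := IsAlgClosed.cardinal_eq_cardinal_transcendence_basis_of_aleph0_lt
    (Subtype.val : s → ℂ) hs h1
    (by rw [Cardinal.mk_complex]; exact Cardinal.aleph0_lt_continuum)
  rw [Cardinal.lift_id, Cardinal.lift_id] at h2
  have : Infinite s := by
    rw [Cardinal.infinite_iff, ← h2, Cardinal.mk_complex]
    exact Cardinal.aleph0_le_continuum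
  let e : V ↪ s := (Fintype.equivFin V).toEmbedding.trans
    (Fin.valEmbedding.trans (Infinite.natEmbedding s))
  exact ⟨fun v => e v, hs.1.comp e e.injective⟩

/-- comparison of transcendence degrees -/
theorem trge_of {k k' L L' σ : Type} [Field k] [Field k'] [Field L] [Field L'] [Algebra k L]
    [Algebra k' L'] [Fintype σ] (x : σ → L) (x' : σ → L')
    (h : ∀ J : Finset σ, AlgebraicIndependent k (fun j : J => x j) →
      AlgebraicIndependent k' (fun j : J => x' j)) (m : ℕ) (hm : TrGe k x m) : TrGe k' x' m := by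
  obtain ⟨I, hI, _, hI3⟩ := t_co k L σ x
  exact FQ.trge_of_indep k' x' I (h I hI) m ((hI3 m).1 hm)

/-- the function field -/
theorem ex_field (σ : Type) [Fintype σ] (P : Ideal (MvPolynomial σ ℂ)) [hP : P.IsPrime] :
    ∃ (F : Type) (_ : Field F) (_ : Algebra ℂ F) (xb : σ → F),
      RingHom.ker (aeval xb : MvPolynomial σ ℂ →ₐ[ℂ] F) = P ∧
      ∀ m, TrGe ℂ xb m ↔ DimGe P m := by
  let A := MvPolynomial σ ℂ ⧸ P
  let F := FractionRing A
  let θ : A →ₐ[ℂ] F := IsScalarTower.toAlgHom ℂ A F
  have hθ : Function.Injective θ := IsFractionRing.injective A F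
  have he : (aeval (fun i => θ (Ideal.Quotient.mkₐ ℂ P (X i))) : MvPolynomial σ ℂ →ₐ[ℂ] F) =
      θ.comp (Ideal.Quotient.mkₐ ℂ P) := by
    apply MvPolynomial.algHom_ext
    intro i
    rw [aeval_X]
    rfl
  refine ⟨F, inferInstance, inferInstance, fun i => θ (Ideal.Quotient.mkₐ ℂ P (X i)), ?_, ?_⟩
  · rw [he]
    ext g
    rw [RingHom.mem_ker, AlgHom.comp_apply, map_eq_zero_iff θ hθ]
    exact Ideal.Quotient.eq_zero_iff_mem
  · intro m
    constructor
    · intro hm
      obtain ⟨I, hI, _, hI3⟩ := t_co ℂ F σ (fun i => θ (Ideal.Quotient.mkₐ ℂ P (X i)))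
      have hmI := (hI3 m).1 hm
      have hJ' : AlgebraicIndependent ℂ (fun j : I => Ideal.Quotient.mkₐ ℂ P (X (j : σ))) :=
        AlgebraicIndependent.of_comp (f := θ) hI
      let e : Fin m ↪ I := (Fin.castLEEmb (by simpa using hmI)).trans
        (Fintype.equivFin I).symm.toEmbedding
      exact ⟨fun i => Ideal.Quotient.mkₐ ℂ P (X (e i : σ)), hJ'.comp e e.injective⟩
    · rintro ⟨y, hy⟩
      refine ⟨fun i => θ (y i), hy.map' (f := θ) hθ, fun i => ?_⟩
      obtain ⟨g, hg⟩ := Ideal.Quotient.mk_surjective (y i)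
      have h1 : θ (y i) = aeval (fun i => θ (Ideal.Quotient.mkₐ ℂ P (X i))) g := by
        rw [he, AlgHom.comp_apply, ← hg]
        rfl
      show θ (y i) ∈ _
      rw [h1]
      have h2 : aeval (fun i => θ (Ideal.Quotient.mkₐ ℂ P (X i))) g ∈
          Algebra.adjoin ℂ (Set.range (fun i => θ (Ideal.Quotient.mkₐ ℂ P (X i)))) := by
        rw [Algebra.adjoin_range_eq_range_aeval]
        exact ⟨g, rfl⟩
      exact IntermediateField.algebra_adjoin_le_adjoin _ _ h2

/-- a point over an algebraically closed field with the same relations over `k` -/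
theorem ex_pt {k F L2 σ : Type} [Field k] [Field F] [Algebra k F] [Field L2] [Algebra k L2]
    [IsAlgClosed L2] [Fintype σ] (xb : σ → F)
    (ht : ∀ (V : Type) [Fintype V], ∃ t : V → L2, AlgebraicIndependent k t) :
    ∃ x : σ → L2, ∀ f : MvPolynomial σ k, aeval x f = 0 ↔ aeval xb f = 0 := by
  obtain ⟨I, hI, hI2, _⟩ := t_co k F σ xb
  obtain ⟨t, ht⟩ := ht I
  have hrange : Set.range (fun i : I => xb i) = xb '' (I : Set σ) := by
    ext y
    simp
  obtain ⟨φ0, _⟩ : ∃ φ0 : IntermediateField.adjoin k (xb '' (I : Set σ)) →ₐ[k] L2, True := by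
    rw [← hrange]
    exact ⟨((IntermediateField.adjoin k (Set.range t)).val.comp
      ht.aevalEquivField.toAlgHom).comp hI.aevalEquivField.symm.toAlgHom, trivial⟩
  obtain ⟨E, iE, ψ, φ, j, hψj, hφj, hE⟩ := FQ.exLift _ F L2 φ0.toRingHom
  choose xe hxe using fun i => hE (xb i) (hI2 i)
  refine ⟨fun i => φ (xe i), fun f => ?_⟩
  let c : k →+* E := j.comp (algebraMap k _)
  have h1 : aeval (fun i => φ (xe i)) f = φ (eval₂ c xe f) := by
    rw [aeval_def, hom_eval₂]
    have h : algebraMap k L2 = φ.comp c := by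
      ext a
      show algebraMap k L2 a = φ (j (algebraMap k _ a))
      rw [hφj]
      exact (φ0.commutes a).symm
    rw [h]
  have h2 : aeval xb f = ψ (eval₂ c xe f) := by
    rw [aeval_def, hom_eval₂]
    have h : algebraMap k F = ψ.comp c := by
      ext a
      show algebraMap k F a = ψ (j (algebraMap k _ a))
      rw [hψj]
      rfl
    rw [h]
    congr 1
    exact funext fun i => (hxe i).symm
  rw [h1, h2, map_eq_zero_iff _ φ.injective, map_eq_zero_iff _ ψ.injective]

/-- independence in terms of relations -/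
theorem ind_of {k L L' σ τ : Type} [Field k] [Field L] [Field L'] [Algebra k L] [Algebra k L']
    (x : σ → L) (x' : σ → L') (h : ∀ f : MvPolynomial σ k, aeval x' f = 0 → aeval x f = 0)
    (e : τ → σ) (hx : AlgebraicIndependent k (fun j => x (e j))) :
    AlgebraicIndependent k (fun j => x' (e j)) := by
  rw [algebraicIndependent_iff] at hx ⊢
  intro p hp
  apply hx
  have h1 : ∀ (M : Type) [Field M] [Algebra k M] (z : σ → M),
      aeval (fun j => z (e j)) p = aeval z (rename e p) := by
    intro M _ _ z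
    rw [aeval_rename]
    rfl
  rw [h1]
  apply h
  rw [← h1]
  exact hp

theorem main : S_GEN := by
  intro σ _ R hR k hk ⟨B, hB⟩
  obtain ⟨F, _, _, xb, hker, hdim⟩ := ex_field σ R
  obtain ⟨x, hx⟩ := ex_pt (k := k) (L2 := ℂ) xb (fun V _ => ex_ind k hk V)
  refine ⟨x, fun f => ?_, fun m => ?_⟩
  · rw [hx, ← hker, RingHom.mem_ker, aeval_map_algebraMap]
  · rw [← hdim m]
    constructor
    · intro hm
      refine trge_of x xb (fun J hJ => ?_) m hm
      have h1 : AlgebraicIndependent k (fun j : J => xb j) :=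
        ind_of x xb (fun f hf => (hx f).2 hf) (fun j : J => (j : σ)) hJ
      by_contra h2
      exact TD.dep xb ((MvPolynomial.map (algebraMap k ℂ)) '' B) (by rw [hker]; exact hB)
        (fun f hf => by
          obtain ⟨f0, _, h⟩ := hf
          exact ⟨f0, h⟩) (fun j : J => (j : σ)) h2 h1
    · intro hm
      refine trge_of xb x (fun J hJ => ?_) m hm
      exact ind_of xb x (fun f hf => (hx f).1 hf) (fun j : J => (j : σ))
        (hJ.restrictScalars (algebraMap k ℂ).injective)

end Pool.Agent.W389.YP.GEN
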